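import Mathlib

/-!
# AND-composed functions: deterministic complexity is not bounded by any function of the quantum one

`f : {0,1}^n → {0,1}` is the threshold function which is `1` iff at most one bit is `0`, and
`F(x,y) = f(x ∧ y)`. With prior entanglement `4` qubits are enough to compute `F` with error at most
`1/3` (in fact `1/4`), for every `n`; a deterministic protocol needs `log₂ n` bits. So there is no
polynomial `P` (and no function `P` at all) with `D(F) ≤ P(Q*(F))` for all AND-composed functions.

Quantum protocols: the two parties hold registers with bases `A` and `B`, in the joint pure state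
`∑ ψ a b |a⟩|b⟩`, which is given by the matrix `ψ`. To send a qubit, Alice applies an isometry, which may
depend on her input, from the space of her register to the tensor product of the space of a new
register and a qubit, and the qubit becomes part of the register of Bob; Bob sends qubits in the same
way. At the end one of the parties makes a projective measurement with two outcomes. The initial state is
an arbitrary unit vector, the prior entangled state, which does not depend on the inputs.
-/

set_option autoImplicit false

namespace Pool.Agent.Results.MP_799357_lc.BoundedQuantum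

open Matrix

/-! ### Definitions -/

/-- `F(x,y) = f(x ∧ y)`, where `x ∧ y` is the coordinatewise AND. -/
def andComp {n : ℕ} (f : (Fin n → Bool) → Bool) (x y : Fin n → Bool) : Bool :=
  f fun i => x i && y i

/-- Deterministic two-party protocols: protocol trees. At a node of Alice (Bob) she (he) sends a bit
which depends on her (his) input; the leaves are labelled with the output. -/
inductive Protocol (X Y : Type) : Type
  | leaf (b : Bool) : Protocol X Y
  | alice (q : X → Bool) (p₀ p₁ : Protocol X Y) : Protocol X Y
  | bob (q : Y → Bool) (p₀ p₁ : Protocol X Y) : Protocol X Y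

/-- The output of a protocol on the inputs `x` and `y`. -/
def Protocol.run {X Y : Type} : Protocol X Y → X → Y → Bool
  | .leaf b, _, _ => b
  | .alice q p₀ p₁, x, y => cond (q x) (p₁.run x y) (p₀.run x y)
  | .bob q p₀ p₁, x, y => cond (q y) (p₁.run x y) (p₀.run x y)

/-- The worst-case number of bits exchanged: the depth of the protocol tree. -/
def Protocol.cost {X Y : Type} : Protocol X Y → ℕ
  | .leaf _ => 0
  | .alice _ p₀ p₁ => max p₀.cost p₁.cost + 1
  | .bob _ p₀ p₁ => max p₀.cost p₁.cost + 1

/-- `D(F)`: the least cost of a deterministic protocol for `F`. -/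
noncomputable def D {X Y : Type} (F : X → Y → Bool) : ℕ :=
  sInf {c | ∃ p : Protocol X Y, p.cost = c ∧ ∀ x y, p.run x y = F x y}

/-- The matrix `ψ` is a joint pure state `∑ ψ a b |a⟩|b⟩` of the registers with bases `A` and `B`: a unit
vector. -/
def IsState {A B : Type} [Fintype A] [Fintype B] (ψ : Matrix A B ℂ) : Prop :=
  ∑ a, ∑ b, ‖ψ a b‖ ^ 2 = 1

/-- `P` is a projective measurement with two outcomes. -/
structure IsMeasurement {A : Type} [Fintype A] [DecidableEq A] (P : Bool → Matrix A A ℂ) : Prop where
  selfAdjoint : ∀ o, (P o)ᴴ = P o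
  idempotent : ∀ o, P o * P o = P o
  complete : P false + P true = 1

/-- The joint states `ψ x y` (`x`, `y` the inputs) of two registers with bases `A` and `B` are such
that the parties can finish the computation of `F`, with error at most `1/3` on every input, by
exchanging `c` more qubits. -/
def Finishes {X Y : Type} (F : X → Y → Bool) : (c : ℕ) → (A B : Type) → [Fintype A] → [Fintype B] →
    [DecidableEq A] → [DecidableEq B] → (ψ : X → Y → Matrix A B ℂ) → Prop
  | 0, A, B, _, _, _, _, ψ =>
    -- Alice measures
    (∃ P : X → Bool → Matrix A A ℂ, (∀ x, IsMeasurement (P x)) ∧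
      ∀ x y, 2 / 3 ≤ ∑ a, ∑ b, ‖(P x (F x y) * ψ x y) a b‖ ^ 2) ∨
    -- Bob measures
    (∃ P : Y → Bool → Matrix B B ℂ, (∀ y, IsMeasurement (P y)) ∧
      ∀ x y, 2 / 3 ≤ ∑ a, ∑ b, ‖(ψ x y * (P y (F x y))ᵀ) a b‖ ^ 2)
  | c + 1, A, B, _, _, _, _, ψ =>
    -- Alice sends a qubit
    (∃ (A' : Type) (_ : Fintype A') (_ : DecidableEq A') (U : X → Matrix (A' × Bool) A ℂ),
      (∀ x, (U x)ᴴ * U x = 1) ∧
      Finishes F c A' (Bool × B) fun x y => Matrix.of fun a s => (U x * ψ x y) (a, s.1) s.2) ∨
    -- Bob sends a qubit
    (∃ (B' : Type) (_ : Fintype B') (_ : DecidableEq B') (V : Y → Matrix (B' × Bool) B ℂ),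
      (∀ y, (V y)ᴴ * V y = 1) ∧
      Finishes F c (Bool × A) B' fun x y => Matrix.of fun s b => (ψ x y * (V y)ᵀ) s.2 (b, s.1))

/-- `F` can be computed with error at most `1/3` on every input by a quantum protocol in which the
parties share a prior entangled state and exchange `c` qubits. -/
def QuantumComputes {X Y : Type} (F : X → Y → Bool) (c : ℕ) : Prop :=
  ∃ (A B : Type) (_ : Fintype A) (_ : Fintype B) (_ : DecidableEq A) (_ : DecidableEq B)
    (ψ : Matrix A B ℂ), IsState ψ ∧ Finishes F c A B fun _ _ => ψ

/-- `Q*_{1/3}(F)`: the least number of qubits exchanged. -/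
noncomputable def QStar {X Y : Type} (F : X → Y → Bool) : ℕ := sInf {c | QuantumComputes F c}

/-- The number of zeros of a bit string. -/
def zeros {n : ℕ} (z : Fin n → Bool) : ℕ := (Finset.univ.filter fun i => z i = false).card

/-- The threshold function: at most one bit is zero. -/
def atMostOneZero (n : ℕ) (z : Fin n → Bool) : Bool := decide (zeros z ≤ 1)

/-! ### Deterministic protocols -/

lemma exists_protocol_finset {X Y : Type} [DecidableEq X] (F : X → Y → Bool) (S : Finset X) :
    ∃ p : Protocol X Y, ∀ x ∈ S, ∀ y, p.run x y = F x y := by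
  induction S using Finset.induction_on with
  | empty => exact ⟨.leaf true, by simp⟩
  | insert a S ha ih =>
    obtain ⟨p, hp⟩ := ih
    refine ⟨.alice (fun x => decide (x = a)) p (.bob (fun y => F a y) (.leaf false) (.leaf true)),
      fun x hx y => ?_⟩
    by_cases hxa : x = a
    · subst hxa
      simp only [Protocol.run, decide_true, cond_true]
      cases h : F x y <;> rfl
    · simp only [Protocol.run, hxa, decide_false, cond_false]
      exact hp x ((Finset.mem_insert.1 hx).resolve_left hxa) y

lemma exists_protocol {X Y : Type} [Fintype X] (F : X → Y → Bool) :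
    ∃ p : Protocol X Y, p.cost = D F ∧ ∀ x y, p.run x y = F x y := by
  classical
  obtain ⟨p, hp⟩ := exists_protocol_finset F Finset.univ
  have hne : {c | ∃ p : Protocol X Y, p.cost = c ∧ ∀ x y, p.run x y = F x y}.Nonempty :=
    ⟨p.cost, p, rfl, fun x y => hp x (Finset.mem_univ x) y⟩
  exact Nat.sInf_mem hne

/-- Fooling sets. -/
lemma fooling {X Y ι : Type} (p : Protocol X Y) (u : ι → X) (v : ι → Y) (S : Finset ι)
    (h1 : ∀ i ∈ S, p.run (u i) (v i) = true)
    (h2 : ∀ i ∈ S, ∀ j ∈ S, i ≠ j → p.run (u i) (v j) = false) : S.card ≤ 2 ^ p.cost := by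
  induction p generalizing S with
  | leaf b =>
    simp only [Protocol.cost, pow_zero]
    refine Finset.card_le_one.2 fun i hi j hj => ?_
    by_contra hij
    have h3 := h1 i hi
    have h4 := h2 i hi j hj hij
    simp only [Protocol.run] at h3 h4
    rw [h3] at h4
    exact absurd h4 (by decide)
  | alice q p₀ p₁ ih₀ ih₁ =>
    have e1 : (S.filter fun i => q (u i) = true).card ≤ 2 ^ p₁.cost := by
      refine ih₁ _ (fun i hi => ?_) (fun i hi j hj hij => ?_)
      · obtain ⟨hi, hq⟩ := Finset.mem_filter.1 hi
        have := h1 i hi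
        simpa only [Protocol.run, hq, cond_true] using this
      · obtain ⟨hi, hq⟩ := Finset.mem_filter.1 hi
        obtain ⟨hj, _⟩ := Finset.mem_filter.1 hj
        have := h2 i hi j hj hij
        simpa only [Protocol.run, hq, cond_true] using this
    have e0 : (S.filter fun i => ¬ q (u i) = true).card ≤ 2 ^ p₀.cost := by
      refine ih₀ _ (fun i hi => ?_) (fun i hi j hj hij => ?_)
      · obtain ⟨hi, hq⟩ := Finset.mem_filter.1 hi
        have := h1 i hi
        simpa only [Protocol.run, Bool.not_eq_true _ ▸ hq, cond_false] using this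
      · obtain ⟨hi, hq⟩ := Finset.mem_filter.1 hi
        obtain ⟨hj, _⟩ := Finset.mem_filter.1 hj
        have := h2 i hi j hj hij
        simpa only [Protocol.run, Bool.not_eq_true _ ▸ hq, cond_false] using this
    have e2 := Finset.card_filter_add_card_filter_not (s := S) (fun i => q (u i) = true)
    have e3 : 2 ^ p₀.cost ≤ 2 ^ max p₀.cost p₁.cost :=
      Nat.pow_le_pow_right (by norm_num) (le_max_left _ _)
    have e4 : 2 ^ p₁.cost ≤ 2 ^ max p₀.cost p₁.cost :=
      Nat.pow_le_pow_right (by norm_num) (le_max_right _ _)
    simp only [Protocol.cost, pow_succ]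
    omega
  | bob q p₀ p₁ ih₀ ih₁ =>
    have e1 : (S.filter fun i => q (v i) = true).card ≤ 2 ^ p₁.cost := by
      refine ih₁ _ (fun i hi => ?_) (fun i hi j hj hij => ?_)
      · obtain ⟨hi, hq⟩ := Finset.mem_filter.1 hi
        have := h1 i hi
        simpa only [Protocol.run, hq, cond_true] using this
      · obtain ⟨hi, _⟩ := Finset.mem_filter.1 hi
        obtain ⟨hj, hq⟩ := Finset.mem_filter.1 hj
        have := h2 i hi j hj hij
        simpa only [Protocol.run, hq, cond_true] using this
    have e0 : (S.filter fun i => ¬ q (v i) = true).card ≤ 2 ^ p₀.cost := by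
      refine ih₀ _ (fun i hi => ?_) (fun i hi j hj hij => ?_)
      · obtain ⟨hi, hq⟩ := Finset.mem_filter.1 hi
        have := h1 i hi
        simpa only [Protocol.run, Bool.not_eq_true _ ▸ hq, cond_false] using this
      · obtain ⟨hi, _⟩ := Finset.mem_filter.1 hi
        obtain ⟨hj, hq⟩ := Finset.mem_filter.1 hj
        have := h2 i hi j hj hij
        simpa only [Protocol.run, Bool.not_eq_true _ ▸ hq, cond_false] using this
    have e2 := Finset.card_filter_add_card_filter_not (s := S) (fun i => q (v i) = true)
    have e3 : 2 ^ p₀.cost ≤ 2 ^ max p₀.cost p₁.cost :=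
      Nat.pow_le_pow_right (by norm_num) (le_max_left _ _)
    have e4 : 2 ^ p₁.cost ≤ 2 ^ max p₀.cost p₁.cost :=
      Nat.pow_le_pow_right (by norm_num) (le_max_right _ _)
    simp only [Protocol.cost, pow_succ]
    omega

/-- All bits are one, except the `i`-th bit. -/
def hole {n : ℕ} (i : Fin n) : Fin n → Bool := fun j => decide (j ≠ i)

lemma zeros_hole_hole {n : ℕ} (i j : Fin n) :
    (Finset.univ.filter fun l => (hole i l && hole j l) = false) = {i, j} := by
  ext l
  simp only [Finset.mem_filter, Finset.mem_univ, true_and, Finset.mem_insert,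
    Finset.mem_singleton, hole, Bool.and_eq_false_iff, decide_eq_false_iff_not, not_not]

lemma lower (n : ℕ) : n ≤ 2 ^ D (andComp (atMostOneZero n)) := by
  obtain ⟨p, hp, hrun⟩ := exists_protocol (andComp (atMostOneZero n))
  have := fooling p (hole (n := n)) (hole (n := n)) Finset.univ
    (fun i _ => by
      rw [hrun]
      simp only [andComp, atMostOneZero, zeros, zeros_hole_hole, decide_eq_true_eq]
      simp)
    (fun i _ j _ hij => by
      rw [hrun]
      simp only [andComp, atMostOneZero, zeros, zeros_hole_hole, decide_eq_false_iff_not]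
      rw [Finset.card_pair hij]
      norm_num)
  rw [hp] at this
  simpa using this

/-! ### Quantum protocols -/

section quantum

variable {X Y : Type} {F : X → Y → Bool}

/-- Alice sends a classical bit which depends on her input and on her register. -/
lemma send {c : ℕ} {R B : Type} [Fintype R] [Fintype B] [DecidableEq R] [DecidableEq B]
    (ψ : X → Y → Matrix R B ℂ) (g : X → R → Bool)
    (h : Finishes F c R (Bool × B) fun x y =>
      Matrix.of fun a s => if s.1 = g x a then ψ x y a s.2 else 0) :
    Finishes F (c + 1) R B ψ := by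
  rw [Finishes]
  refine Or.inl ⟨R, inferInstance, inferInstance,
    fun x => Matrix.of fun p a => if p = (a, g x a) then 1 else 0, fun x => ?_, ?_⟩
  · ext a b
    rw [Matrix.mul_apply, Matrix.one_apply]
    simp only [Matrix.conjTranspose_apply, Matrix.of_apply]
    rw [Finset.sum_eq_single (b, g x b)]
    · by_cases hab : a = b
      · subst hab
        simp
      · have : ¬ ((b, g x b) = (a, g x a)) := fun h => hab (Prod.ext_iff.1 h).1.symm
        simp [this, hab]
    · intro p _ hp
      simp [hp]
    · intro h
      exact absurd (Finset.mem_univ _) h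
  · have e : (fun (x : X) (y : Y) => Matrix.of fun a (s : Bool × B) =>
        ((Matrix.of fun (p : R × Bool) (a : R) => if p = (a, g x a) then (1 : ℂ) else 0) *
          ψ x y) (a, s.1) s.2) =
        fun x y => Matrix.of fun a s => if s.1 = g x a then ψ x y a s.2 else 0 := by
      funext x y
      ext a s
      simp only [Matrix.of_apply]
      rw [Matrix.mul_apply]
      simp only [Matrix.of_apply]
      rw [Finset.sum_eq_single a]
      · by_cases hs : s.1 = g x a
        · simp [hs]
        · have : ¬ ((a, s.1) = (a, g x a)) := fun h => hs (Prod.ext_iff.1 h).2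
          simp [hs]
      · intro b _ hb
        have : ¬ ((a, s.1) = (b, g x b)) := fun h => hb (Prod.ext_iff.1 h).1.symm
        rw [if_neg this, zero_mul]
      · intro h
        exact absurd (Finset.mem_univ _) h
    rw [e]
    exact h

/-- Bob measures in the basis of his register. -/
lemma measure {R B : Type} [Fintype R] [Fintype B] [DecidableEq R] [DecidableEq B]
    (ψ : X → Y → Matrix R B ℂ) (dec : Y → B → Bool)
    (h : ∀ x y, 2 / 3 ≤ ∑ a, ∑ b, if dec y b = F x y then ‖ψ x y a b‖ ^ 2 else 0) :
    Finishes F 0 R B ψ := by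
  rw [Finishes]
  refine Or.inr ⟨fun y o => Matrix.diagonal fun b => if dec y b = o then 1 else 0,
    fun y => ⟨fun o => ?_, fun o => ?_, ?_⟩, fun x y => (h x y).trans (le_of_eq ?_)⟩
  · rw [Matrix.diagonal_conjTranspose]
    congr 1
    funext b
    by_cases hb : dec y b = o <;> simp [hb]
  · rw [Matrix.diagonal_mul_diagonal]
    congr 1
    funext b
    by_cases hb : dec y b = o <;> simp [hb]
  · rw [Matrix.diagonal_add, ← Matrix.diagonal_one]
    congr 1
    funext b
    cases dec y b <;> simp
  · refine Finset.sum_congr rfl fun a _ => Finset.sum_congr rfl fun b _ => ?_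
    rw [Matrix.diagonal_transpose, Matrix.mul_diagonal]
    by_cases hb : dec y b = F x y <;> simp [hb]

end quantum

/-! ### The protocol for the threshold function -/

/-- The shared random bits: a function from the positions to pairs of bits. -/
abbrev Rand (n : ℕ) : Type := Fin n → Bool × Bool

/-- The value of the random function at the zero of `x`, if there is only one. -/
def hash {n : ℕ} (x : Fin n → Bool) (r : Rand n) : Bool × Bool :=
  (decide (∃ i, x i = false ∧ (r i).1 = true), decide (∃ i, x i = false ∧ (r i).2 = true))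

/-- The three bits sent by Alice. -/
def bit₁ {n : ℕ} (x : Fin n → Bool) (_ : Rand n) : Bool := decide (zeros x = 1)

/-- The second bit. -/
def bit₂ {n : ℕ} (x : Fin n → Bool) (r : Rand n) : Bool := decide (zeros x = 1) && (hash x r).1

/-- The third bit. -/
def bit₃ {n : ℕ} (x : Fin n → Bool) (r : Rand n) : Bool :=
  cond (decide (zeros x = 1)) (hash x r).2 (decide (zeros x = 0))

/-- The output of Bob. -/
def out {n : ℕ} (y : Fin n → Bool) (s : Bool × (Bool × (Bool × Rand n))) : Bool :=
  decide (zeros y ≤ 1) &&
    cond s.2.2.1 (decide (zeros y = 0) || decide ((s.2.1, s.1) = hash y s.2.2.2)) s.1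

lemma hash_eq {n : ℕ} {x : Fin n → Bool} {a : Fin n}
    (h : (Finset.univ.filter fun i => x i = false) = {a}) (r : Rand n) : hash x r = r a := by
  have h1 : ∀ i, x i = false ↔ i = a := fun i => by
    have := Finset.ext_iff.1 h i
    simpa using this
  have h2 : ∀ P : Fin n → Prop, (∃ i, x i = false ∧ P i) ↔ P a := fun P =>
    ⟨fun ⟨i, hi, hP⟩ => (h1 i).1 hi ▸ hP, fun hP => ⟨a, (h1 a).2 rfl, hP⟩⟩
  refine Prod.ext ?_ ?_
  · simp only [hash, h2 fun i => (r i).1 = true]
    cases (r a).1 <;> rfl
  · simp only [hash, h2 fun i => (r i).2 = true]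
    cases (r a).2 <;> rfl

lemma card_collision {n : ℕ} {a b : Fin n} (hab : a ≠ b) :
    4 * (Finset.univ.filter fun r : Rand n => r a = r b).card ≤ 4 ^ n := by
  classical
  have h1 : ((Finset.univ.filter fun r : Rand n => r a = r b) ×ˢ
      (Finset.univ : Finset (Bool × Bool))).card ≤ (Finset.univ : Finset (Rand n)).card := by
    refine Finset.card_le_card_of_injOn (fun q => Function.update q.1 a q.2)
      (fun _ _ => Finset.mem_coe.2 (Finset.mem_univ _)) ?_
    rintro ⟨r, c⟩ hr ⟨r', c'⟩ hr' h
    have hr1 : r a = r b := by simpa using hr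
    have hr2 : r' a = r' b := by simpa using hr'
    simp only at h
    have hc : c = c' := by
      have := congrFun h a
      simpa using this
    have hne : ∀ i, i ≠ a → r i = r' i := fun i hi => by
      have := congrFun h i
      simpa [Function.update_of_ne hi] using this
    have hr3 : r = r' := by
      funext i
      by_cases hi : i = a
      · subst hi
        rw [hr1, hr2, hne b hab.symm]
      · exact hne i hi
    rw [hc, hr3]
  rw [Finset.card_product, Finset.card_univ, Finset.card_univ, Fintype.card_fun, Fintype.card_fin,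
    Fintype.card_prod, Fintype.card_bool] at h1
  have h44 : (2 * 2 : ℕ) = 4 := rfl
  rw [h44] at h1
  omega

/-- The number of random strings for which the output is correct. -/
lemma card_good {n : ℕ} (x y : Fin n → Bool) :
    3 * 4 ^ n ≤ 4 * (Finset.univ.filter fun r : Rand n =>
      out y (bit₃ x r, (bit₂ x r, (bit₁ x r, r))) = andComp (atMostOneZero n) x y).card := by
  have hcard : (Finset.univ : Finset (Rand n)).card = 4 ^ n := by
    rw [Finset.card_univ, Fintype.card_fun, Fintype.card_fin, Fintype.card_prod, Fintype.card_bool]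
  -- it is enough that the output is always correct
  have hall : (∀ r : Rand n, out y (bit₃ x r, (bit₂ x r, (bit₁ x r, r))) =
      andComp (atMostOneZero n) x y) → 3 * 4 ^ n ≤ 4 * (Finset.univ.filter fun r : Rand n =>
      out y (bit₃ x r, (bit₂ x r, (bit₁ x r, r))) = andComp (atMostOneZero n) x y).card := by
    intro h
    rw [Finset.filter_true_of_mem fun r _ => h r, hcard]
    omega
  have hunion : (Finset.univ.filter fun i => (x i && y i) = false) =
      (Finset.univ.filter fun i => x i = false) ∪ (Finset.univ.filter fun i => y i = false) := by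
    ext i
    simp only [Finset.mem_filter, Finset.mem_univ, true_and, Finset.mem_union,
      Bool.and_eq_false_iff]
  have hF : andComp (atMostOneZero n) x y =
      decide (((Finset.univ.filter fun i => x i = false) ∪
        (Finset.univ.filter fun i => y i = false)).card ≤ 1) := by
    rw [← hunion]
    rfl
  by_cases hy : zeros y ≤ 1
  swap
  · refine hall fun r => ?_
    rw [hF]
    have h1 : ¬ (((Finset.univ.filter fun i => x i = false) ∪
        (Finset.univ.filter fun i => y i = false)).card ≤ 1) := fun h =>
      hy ((Finset.card_le_card Finset.subset_union_right).trans h)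
    simp only [out, hy, h1, decide_false, Bool.false_and]
  by_cases hx1 : zeros x = 1
  swap
  · refine hall fun r => ?_
    rw [hF]
    by_cases hx0 : zeros x = 0
    · have h0 : (Finset.univ.filter fun i => x i = false) = ∅ := Finset.card_eq_zero.1 hx0
      have h1 : ((Finset.univ.filter fun i => x i = false) ∪
        (Finset.univ.filter fun i => y i = false)).card ≤ 1 := by
        rw [h0, Finset.empty_union]
        exact hy
      simp [out, bit₁, bit₃, hx0, hy, h1]
    · have h1 : ¬ (((Finset.univ.filter fun i => x i = false) ∪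
        (Finset.univ.filter fun i => y i = false)).card ≤ 1) := fun h => by
        have h2 : zeros x ≤ 1 := (Finset.card_le_card Finset.subset_union_left).trans h
        omega
      simp [out, bit₁, bit₃, hx0, hx1, h1]
  obtain ⟨a, ha⟩ := Finset.card_eq_one.1 hx1
  by_cases hy0 : zeros y = 0
  · refine hall fun r => ?_
    rw [hF]
    have h0 : (Finset.univ.filter fun i => y i = false) = ∅ := Finset.card_eq_zero.1 hy0
    have h1 : ((Finset.univ.filter fun i => x i = false) ∪
      (Finset.univ.filter fun i => y i = false)).card ≤ 1 := by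
      rw [h0, Finset.union_empty]
      exact hx1.le
    simp [out, bit₁, hx1, hy0, h1]
  have hy1 : zeros y = 1 := by omega
  obtain ⟨b, hb⟩ := Finset.card_eq_one.1 hy1
  have hout : ∀ r : Rand n, out y (bit₃ x r, (bit₂ x r, (bit₁ x r, r))) = decide (r a = r b) := by
    intro r
    simp only [out, bit₁, bit₂, bit₃, hx1, hy, hy0, decide_true, decide_false, Bool.true_and,
      Bool.false_or, cond_true, hash_eq ha, hash_eq hb]
  by_cases hab : a = b
  · refine hall fun r => ?_
    rw [hout, hF, ha, hb, hab]
    simp
  · have hF' : andComp (atMostOneZero n) x y = false := by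
      rw [hF, ha, hb, ← Finset.insert_eq, Finset.card_pair hab]
      rfl
    have h1 := card_collision hab
    have h2 := Finset.card_filter_add_card_filter_not (s := (Finset.univ : Finset (Rand n)))
      (fun r => r a = r b)
    rw [hcard] at h2
    have h3 : (Finset.univ.filter fun r : Rand n =>
        out y (bit₃ x r, (bit₂ x r, (bit₁ x r, r))) = andComp (atMostOneZero n) x y) =
        Finset.univ.filter fun r : Rand n => ¬ r a = r b := by
      refine Finset.filter_congr fun r _ => ?_
      rw [hout, hF', decide_eq_false_iff_not]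
    rw [h3]
    omega

/-- The prior entangled state. -/
noncomputable def prior (n : ℕ) : Matrix (Rand n) (Rand n) ℂ :=
  Matrix.of fun a b => if a = b then (1 / 2 ^ n : ℂ) else 0

lemma norm_prior (n : ℕ) (a b : Rand n) :
    ‖prior n a b‖ ^ 2 = if a = b then (1 / 4 ^ n : ℝ) else 0 := by
  rw [prior, Matrix.of_apply]
  by_cases h : a = b
  · simp only [h, if_true, norm_div, norm_one, norm_pow]
    rw [div_pow, one_pow, ← pow_mul, mul_comm n 2, pow_mul]
    norm_num
  · simp [h]

lemma quantum_upper (n : ℕ) : QuantumComputes (andComp (atMostOneZero n)) 3 := by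
  refine ⟨Rand n, Rand n, inferInstance, inferInstance, inferInstance, inferInstance, prior n, ?_,
    ?_⟩
  · rw [IsState]
    simp only [norm_prior, Finset.sum_ite_eq, Finset.mem_univ, if_true, Finset.sum_const,
      Finset.card_univ, Fintype.card_fun, Fintype.card_fin, Fintype.card_prod, Fintype.card_bool,
      nsmul_eq_mul]
    norm_num
  · refine send _ bit₁ (send _ bit₂ (send _ bit₃ (measure _ out fun x y => ?_)))
    have h1 : ∀ a : Rand n, (∑ b : Bool × (Bool × (Bool × Rand n)),
        if out y b = andComp (atMostOneZero n) x y then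
          ‖(Matrix.of fun a (s : Bool × (Bool × (Bool × Rand n))) => if s.1 = bit₃ x a then
            (Matrix.of fun a (s : Bool × (Bool × Rand n)) => if s.1 = bit₂ x a then
              (Matrix.of fun a (s : Bool × Rand n) => if s.1 = bit₁ x a then
                prior n a s.2 else 0 : Matrix (Rand n) (Bool × Rand n) ℂ) a s.2
              else 0 : Matrix (Rand n) (Bool × (Bool × Rand n)) ℂ) a s.2
            else 0 : Matrix (Rand n) (Bool × (Bool × (Bool × Rand n))) ℂ) a b‖ ^ 2 else 0) =
        if out y (bit₃ x a, (bit₂ x a, (bit₁ x a, a))) = andComp (atMostOneZero n) x y then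
          (1 / 4 ^ n : ℝ) else 0 := by
      intro a
      rw [Finset.sum_eq_single (bit₃ x a, (bit₂ x a, (bit₁ x a, a)))]
      · simp only [Matrix.of_apply, if_true, norm_prior]
      · rintro ⟨s₃, s₂, s₁, b⟩ _ hs
        simp only [Matrix.of_apply]
        by_cases e3 : s₃ = bit₃ x a
        swap
        · simp [e3]
        by_cases e2 : s₂ = bit₂ x a
        swap
        · simp [e2]
        by_cases e1 : s₁ = bit₁ x a
        swap
        · simp [e1]
        have e0 : ¬ a = b := fun h => hs (by rw [e3, e2, e1, h])
        simp only [e3, e2, e1, if_true, norm_prior, if_neg e0, ite_self]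
      · intro h
        exact absurd (Finset.mem_univ _) h
    refine le_trans ?_ (le_of_eq (Finset.sum_congr rfl fun a _ => (h1 a).symm))
    rw [← Finset.sum_filter, Finset.sum_const, nsmul_eq_mul]
    have h2 : (3 * 4 ^ n : ℝ) ≤ 4 * ((Finset.univ.filter fun r : Rand n =>
      out y (bit₃ x r, (bit₂ x r, (bit₁ x r, r))) = andComp (atMostOneZero n) x y).card : ℝ) := by
      exact_mod_cast card_good x y
    have h3 : (0 : ℝ) < 4 ^ n := by positivity
    rw [mul_one_div, le_div_iff₀ h3]
    linarith

lemma upper (n : ℕ) : QStar (andComp (atMostOneZero n)) ≤ 3 := Nat.sInf_le (quantum_upper n)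

/-- **No polynomial relation.** (1) The threshold functions `f`: for all `n` we have `Q*(F) ≤ 3` and
`n ≤ 2 ^ D(F)`, where `F(x,y) = f(x ∧ y)`. (2) For every function `g` there are `n` and `f` with
`D(F) > g (Q*(F))`. (3) In particular there is no polynomial `P` with `D(F) ≤ P(Q*(F))` for all `n`
and `f`. -/
theorem result :
    (∀ n : ℕ, QStar (andComp (atMostOneZero n)) ≤ 3 ∧ n ≤ 2 ^ D (andComp (atMostOneZero n))) ∧
    (∀ g : ℕ → ℝ, ∃ (n : ℕ) (f : (Fin n → Bool) → Bool),
      g (QStar (andComp f)) < (D (andComp f) : ℝ)) ∧
    ¬ ∃ P : Polynomial ℝ, ∀ (n : ℕ) (f : (Fin n → Bool) → Bool),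
      (D (andComp f) : ℝ) ≤ P.eval (QStar (andComp f) : ℝ) := by
  have key : ∀ g : ℕ → ℝ, ∃ (n : ℕ) (f : (Fin n → Bool) → Bool),
      g (QStar (andComp f)) < (D (andComp f) : ℝ) := by
    intro g
    obtain ⟨B, hB⟩ : ∃ B : ℕ, ∀ q : ℕ, q ≤ 3 → g q < B := by
      obtain ⟨B, hB⟩ := exists_nat_gt (|g 0| + |g 1| + |g 2| + |g 3|)
      refine ⟨B, fun q hq => lt_of_le_of_lt ?_ hB⟩
      have a0 := abs_nonneg (g 0)
      have a1 := abs_nonneg (g 1)
      have a2 := abs_nonneg (g 2)
      have a3 := abs_nonneg (g 3)
      have b0 := le_abs_self (g 0)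
      have b1 := le_abs_self (g 1)
      have b2 := le_abs_self (g 2)
      have b3 := le_abs_self (g 3)
      interval_cases q <;> linarith
    refine ⟨2 ^ B, atMostOneZero _, (hB _ (upper _)).trans_le ?_⟩
    exact_mod_cast (Nat.pow_le_pow_iff_right (by norm_num)).1 (lower (2 ^ B))
  refine ⟨fun n => ⟨upper n, lower n⟩, key, ?_⟩
  rintro ⟨P, hP⟩
  obtain ⟨n, f, h⟩ := key fun q => P.eval (q : ℝ)
  exact absurd (hP n f) (not_le.2 h)

end Pool.Agent.Results.MP_799357_lc.BoundedQuantum
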